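import Mathlib

/-! The Ricci matrix of a tree and leaf attachment. -/

open Matrix Finset

namespace Pool.Agent.J4H66.TR

/-- The largest (real) eigenvalue of a real matrix. -/
noncomputable def lmax {ι : Type*} [Fintype ι] (A : Matrix ι ι ℝ) : ℝ :=
  sSup {μ : ℝ | ∃ x : ι → ℝ, x ≠ 0 ∧ A *ᵥ x = μ • x}

open Classical in
/-- The Ricci matrix, indexed by the edges: the diagonal entry at `e = {x, y}` is
`-(1 / d x + 1 / d y)`; the entry at `e ≠ e'` is `1 / d x` if `x` is the common vertex of `e` and
`e'`, and `0` if there is none. -/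
noncomputable def ricci {V : Type*} [Fintype V] (G : SimpleGraph V) :
    Matrix G.edgeSet G.edgeSet ℝ := fun e e' =>
  if e = e' then -∑ x with x ∈ (e : Sym2 V), 1 / (G.degree x : ℝ)
  else ∑ x with x ∈ (e : Sym2 V) ∧ x ∈ (e' : Sym2 V), 1 / (G.degree x : ℝ)

/-- Attaching a leaf `none` at the vertex `v`. -/
def attachLeaf {V : Type*} (G : SimpleGraph V) (v : V) : SimpleGraph (Option V) where
  Adj a b := match a, b with
    | some x, some y => G.Adj x y
    | some x, none => x = v
    | none, some y => y = v
    | none, none => False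
  symm := ⟨fun a b h => by
    cases a <;> cases b
    · exact h
    · exact h
    · exact h
    · exact SimpleGraph.Adj.symm (G := G) h⟩
  loopless := ⟨fun a h => by
    cases a
    · exact h
    · exact G.irrefl h⟩

end Pool.Agent.J4H66.TR
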