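import Pool.Agent.J4H20.TR.Stm
import Pool.Agent.W505.CG.Irr

/-! TR2-IRR: reversed Eisenstein. -/

set_option autoImplicit false

namespace Pool.Agent.J4H66.TR

open Polynomial Pool.Agent.W505.CG Pool.Agent.J4H20.TR

lemma irr_prim {F : ℤ[X]} {n q : ℕ} (hn : 1 ≤ n) (hFd : F.natDegree = n) (hq : q.Prime)
    (hqj : ∀ j, 1 ≤ j → (q : ℤ) ∣ F.coeff j) (hqn : ¬ (q : ℤ) ^ 2 ∣ F.coeff n)
    (hq0 : ¬ (q : ℤ) ∣ F.coeff 0) (hprim : F.IsPrimitive) : Irreducible F := by
  have hF0 : F.coeff 0 ≠ 0 := fun h => hq0 (by rw [h]; exact dvd_zero _)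
  refine irr_of_reverse hF0 ?_
  have hRd : F.reverse.natDegree = n := by rw [natDegree_reverse' hF0, hFd]
  have hRc : ∀ j, j ≤ n → F.reverse.coeff j = F.coeff (n - j) := by
    intro j hj
    rw [coeff_reverse, hFd, revAt_le hj]
  have hqp : Prime (q : ℤ) := Nat.prime_iff_prime_int.mp hq
  refine irreducible_of_eisenstein_criterion (P := Ideal.span {(q : ℤ)})
    ((Ideal.span_singleton_prime hqp.ne_zero).mpr hqp) ?_ ?_ ?_ ?_ ?_
  · rw [leadingCoeff, hRd, hRc n le_rfl, Nat.sub_self, Ideal.mem_span_singleton]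
    exact hq0
  · intro j hj
    have hj' : j < n := by
      rw [← hRd]
      exact lt_of_lt_of_le (by exact_mod_cast (lt_of_lt_of_le hj degree_le_natDegree)) le_rfl
    rw [hRc j hj'.le, Ideal.mem_span_singleton]
    exact hqj _ (by omega)
  · rw [← natDegree_pos_iff_degree_pos, hRd]
    omega
  · rw [hRc 0 (Nat.zero_le _), Nat.sub_zero, Ideal.span_singleton_pow,
      Ideal.mem_span_singleton]
    exact hqn
  · intro r hr
    rw [C_dvd_iff_dvd_coeff] at hr
    refine hprim r ?_
    rw [C_dvd_iff_dvd_coeff]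
    intro j
    rcases le_or_gt j n with hj | hj
    · have := hr (n - j)
      rwa [hRc (n - j) (Nat.sub_le _ _), Nat.sub_sub_self hj] at this
    · rw [coeff_eq_zero_of_natDegree_lt (by omega)]
      exact dvd_zero _

theorem t_IRR : S_IRR := by
  intro h n q hn hd hq hqj hqn hq0
  have hqp : Prime (q : ℤ) := Nat.prime_iff_prime_int.mp hq
  have hh0 : h ≠ 0 := by
    rintro rfl
    exact hq0 (by simp)
  have hc0 : h.content ≠ 0 := by
    rw [Ne, content_eq_zero_iff]
    exact hh0
  have hco : ∀ j, h.coeff j = h.content * h.primPart.coeff j := by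
    intro j
    conv_lhs => rw [h.eq_C_content_mul_primPart]
    rw [coeff_C_mul]
  have hqc : ¬ (q : ℤ) ∣ h.content := by
    intro hc
    apply hq0
    rw [hco 0]
    exact Dvd.dvd.mul_right hc _
  have hirr : Irreducible h.primPart := by
    refine irr_prim hn (by rw [natDegree_primPart, hd]) hq ?_ ?_ ?_ h.isPrimitive_primPart
    · intro j hj
      have := hqj j hj
      rw [hco j] at this
      exact (hqp.dvd_or_dvd this).resolve_left hqc
    · intro hc
      apply hqn
      rw [hco n]
      exact Dvd.dvd.mul_left hc _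
    · intro hc
      apply hq0
      rw [hco 0]
      exact Dvd.dvd.mul_left hc _
  have h2 := (IsPrimitive.Int.irreducible_iff_irreducible_map_cast h.isPrimitive_primPart).mp hirr
  have h3 : h.map (Int.castRingHom ℚ) =
      C ((h.content : ℤ) : ℚ) * h.primPart.map (Int.castRingHom ℚ) := by
    conv_lhs => rw [h.eq_C_content_mul_primPart]
    rw [Polynomial.map_mul, map_C]
    simp
  rw [h3]
  have hu : IsUnit (C ((h.content : ℤ) : ℚ) : ℚ[X]) := by
    rw [isUnit_C, isUnit_iff_ne_zero]
    exact_mod_cast hc0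
  exact (irreducible_isUnit_mul hu).mpr h2

end Pool.Agent.J4H66.TR
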