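import Pool.Agent.J4H66.TR.Defs

/-! Largest eigenvalues of real symmetric matrices with nonnegative off-diagonal entries. -/

open Matrix Finset

namespace Pool.Agent.J4H66.TR

variable {ι : Type*} [Fintype ι] {A : Matrix ι ι ℝ}

theorem eig_le (hA : ∀ i j, i ≠ j → 0 ≤ A i j) {z : ι → ℝ} (hz : ∀ i, 0 < z i) {lam : ℝ}
    (h : ∀ i, (A *ᵥ z) i ≤ lam * z i) {μ : ℝ} {x : ι → ℝ} (hx : x ≠ 0) (hμ : A *ᵥ x = μ • x) :
    μ ≤ lam := by
  classical
  obtain ⟨k, hk⟩ : ∃ k, x k ≠ 0 := Function.ne_iff.1 hx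
  obtain ⟨i, -, hi⟩ := Finset.exists_max_image univ (fun i => |x i| / z i) ⟨k, mem_univ k⟩
  set t := |x i| / z i with ht
  have ht0 : 0 < t := by
    have h1 : 0 < |x k| / z k := div_pos (abs_pos.2 hk) (hz k)
    exact h1.trans_le (hi k (mem_univ k))
  have hle : ∀ j, |x j| ≤ t * z j := fun j => (div_le_iff₀ (hz j)).1 (hi j (mem_univ j))
  have heq : |x i| = t * z i := by rw [ht, div_mul_cancel₀ _ (hz i).ne']
  have h1 : (A *ᵥ x) i = μ * x i := by rw [hμ]; rfl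
  have h2 : (A *ᵥ x) i = A i i * x i + ∑ j ∈ univ.erase i, A i j * x j := by
    rw [mulVec, dotProduct, ← Finset.add_sum_erase univ _ (mem_univ i)]
  have h3 : (A *ᵥ z) i = A i i * z i + ∑ j ∈ univ.erase i, A i j * z j := by
    rw [mulVec, dotProduct, ← Finset.add_sum_erase univ _ (mem_univ i)]
  have h4 : |(μ - A i i) * x i| ≤ t * ∑ j ∈ univ.erase i, A i j * z j := by
    have e : (μ - A i i) * x i = ∑ j ∈ univ.erase i, A i j * x j := by
      rw [h1] at h2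
      linarith
    rw [e, Finset.mul_sum]
    refine (Finset.abs_sum_le_sum_abs _ _).trans (Finset.sum_le_sum fun j hj => ?_)
    have hj2 := hA i j (Finset.ne_of_mem_erase hj).symm
    rw [abs_mul, abs_of_nonneg hj2]
    calc A i j * |x j| ≤ A i j * (t * z j) := mul_le_mul_of_nonneg_left (hle j) hj2
      _ = t * (A i j * z j) := by ring
  have h5 : ∑ j ∈ univ.erase i, A i j * z j ≤ (lam - A i i) * z i := by
    have := h i
    rw [h3] at this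
    linarith
  rw [abs_mul, heq] at h4
  have h6 : |μ - A i i| * (t * z i) ≤ (lam - A i i) * (t * z i) := by
    calc |μ - A i i| * (t * z i) ≤ t * ∑ j ∈ univ.erase i, A i j * z j := h4
      _ ≤ t * ((lam - A i i) * z i) := mul_le_mul_of_nonneg_left h5 ht0.le
      _ = (lam - A i i) * (t * z i) := by ring
  have h7 := le_of_mul_le_mul_right h6 (mul_pos ht0 (hz i))
  linarith [le_abs_self (μ - A i i)]

theorem lmax_le (hA : ∀ i j, i ≠ j → 0 ≤ A i j) {z : ι → ℝ} (hz : ∀ i, 0 < z i) {lam : ℝ}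
    (h0 : 0 ≤ lam) (h : ∀ i, (A *ᵥ z) i ≤ lam * z i) : lmax A ≤ lam := by
  refine Real.sSup_le ?_ h0
  rintro μ ⟨x, hx, hμ⟩
  exact eig_le hA hz h hx hμ

theorem bdd (hA : ∀ i j, i ≠ j → 0 ≤ A i j) :
    BddAbove {μ : ℝ | ∃ x : ι → ℝ, x ≠ 0 ∧ A *ᵥ x = μ • x} := by
  classical
  refine ⟨∑ i, |(A *ᵥ fun _ => (1 : ℝ)) i|, ?_⟩
  rintro μ ⟨x, hx, hμ⟩
  refine eig_le hA (z := fun _ => 1) (fun _ => one_pos) (fun i => ?_) hx hμ
  rw [mul_one]
  exact (le_abs_self _).trans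
    (Finset.single_le_sum (f := fun i => |(A *ᵥ fun _ => (1 : ℝ)) i|) (fun _ _ => abs_nonneg _)
      (mem_univ i))

theorem le_lmax (hA : ∀ i j, i ≠ j → 0 ≤ A i j) (hs : A.IsHermitian) {x : ι → ℝ} (hx : x ≠ 0)
    (hx0 : ∀ i, 0 ≤ x i) {lam : ℝ} (h : ∀ i, lam * x i ≤ (A *ᵥ x) i) : lam ≤ lmax A := by
  classical
  haveI : Nontrivial (EuclideanSpace ℝ ι) := by
    refine ⟨WithLp.toLp 2 x, 0, fun h0 => hx ?_⟩
    have := congrArg WithLp.ofLp h0
    simpa using this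
  let T : EuclideanSpace ℝ ι →ₗ[ℝ] EuclideanSpace ℝ ι := A.toEuclideanLin
  have hT : T.IsSymmetric := Matrix.isHermitian_iff_isSymmetric.1 hs
  have hev := hT.hasEigenvalue_iSup_of_finiteDimensional
  set M : ℝ := ⨆ x : { x : EuclideanSpace ℝ ι // x ≠ 0 }, RCLike.re (inner ℝ (T x) (x : EuclideanSpace ℝ ι)) / ‖(x : EuclideanSpace ℝ ι)‖ ^ 2 with hM
  have hMmem : M ∈ {μ : ℝ | ∃ x : ι → ℝ, x ≠ 0 ∧ A *ᵥ x = μ • x} := by
    obtain ⟨v, hv⟩ := hev.exists_hasEigenvector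
    refine ⟨WithLp.ofLp v, fun h0 => hv.2 ?_, ?_⟩
    · ext i
      exact congrFun h0 i
    · have h1 := hv.apply_eq_smul
      have h2 := congrArg WithLp.ofLp h1
      simpa [T, Matrix.toEuclideanLin] using h2
  refine le_trans ?_ (le_csSup (bdd hA) hMmem)
  have hbd : BddAbove (Set.range fun x : { x : EuclideanSpace ℝ ι // x ≠ 0 } =>
      RCLike.re (inner ℝ (T x) (x : EuclideanSpace ℝ ι)) / ‖(x : EuclideanSpace ℝ ι)‖ ^ 2) := by
    refine ⟨‖LinearMap.toContinuousLinearMap T‖, ?_⟩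
    rintro _ ⟨y, rfl⟩
    have hy : 0 < ‖(y : EuclideanSpace ℝ ι)‖ := norm_pos_iff.2 y.2
    show RCLike.re (inner ℝ (T y) (y : EuclideanSpace ℝ ι)) / ‖(y : EuclideanSpace ℝ ι)‖ ^ 2 ≤ _
    rw [div_le_iff₀ (by positivity)]
    have h1 : ‖T y‖ ≤ ‖LinearMap.toContinuousLinearMap T‖ * ‖(y : EuclideanSpace ℝ ι)‖ :=
      (LinearMap.toContinuousLinearMap T).le_opNorm y
    calc RCLike.re (inner ℝ (T y) (y : EuclideanSpace ℝ ι))
        ≤ ‖T y‖ * ‖(y : EuclideanSpace ℝ ι)‖ := re_inner_le_norm _ _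
      _ ≤ (‖LinearMap.toContinuousLinearMap T‖ * ‖(y : EuclideanSpace ℝ ι)‖) *
          ‖(y : EuclideanSpace ℝ ι)‖ := mul_le_mul_of_nonneg_right h1 (norm_nonneg _)
      _ = _ := by ring
  have hx2 : (WithLp.toLp 2 x : EuclideanSpace ℝ ι) ≠ 0 := by
    intro h0
    apply hx
    have := congrArg WithLp.ofLp h0
    simpa using this
  refine le_trans ?_ (le_ciSup hbd ⟨WithLp.toLp 2 x, hx2⟩)
  have hn : 0 < ‖(WithLp.toLp 2 x : EuclideanSpace ℝ ι)‖ := norm_pos_iff.2 hx2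
  show lam ≤ RCLike.re (inner ℝ (T (WithLp.toLp 2 x)) (WithLp.toLp 2 x)) /
    ‖(WithLp.toLp 2 x : EuclideanSpace ℝ ι)‖ ^ 2
  rw [le_div_iff₀ (by positivity), EuclideanSpace.norm_sq_eq]
  have e1 : (RCLike.re (inner ℝ (T (WithLp.toLp 2 x)) (WithLp.toLp 2 x)) : ℝ) =
      ∑ i, x i * (A *ᵥ x) i := by
    rw [PiLp.inner_apply]
    simp [T, Matrix.toEuclideanLin]
  rw [e1, Finset.mul_sum]
  refine Finset.sum_le_sum fun i _ => ?_
  have h1 := mul_le_mul_of_nonneg_left (h i) (hx0 i)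
  simp only [Real.norm_eq_abs, sq_abs]
  calc lam * x i ^ 2 = x i * (lam * x i) := by ring
    _ ≤ _ := h1

end Pool.Agent.J4H66.TR
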