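import Pool.Agent.J4H66.TR.Mat

/-! The Ricci matrix acting on functions of the edges. -/

open Matrix Finset

namespace Pool.Agent.J4H66.TR

open scoped Classical in
/-- sum over the edges at a vertex -/
noncomputable def S {V : Type*} [Fintype V] (G : SimpleGraph V) (F : Sym2 V → ℝ) (a : V) : ℝ :=
  ∑ c with G.Adj a c, F s(a, c)

variable {V : Type*} [Fintype V] (G : SimpleGraph V)

open scoped Classical

theorem ricci_nonneg (e e' : G.edgeSet) (h : e ≠ e') : 0 ≤ ricci G e e' := by
  unfold ricci
  rw [if_neg h]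
  exact Finset.sum_nonneg fun x _ => by positivity

theorem ricci_symm : (ricci G).IsHermitian := by
  ext e e'
  simp only [conjTranspose_apply, star_trivial]
  unfold ricci
  by_cases h : e = e'
  · subst h
    rfl
  · rw [if_neg h, if_neg (Ne.symm h)]
    refine Finset.sum_congr ?_ fun _ _ => rfl
    ext x
    simp [and_comm]

theorem degree_eq (a : V) : (G.degree a : ℝ) = ∑ c with G.Adj a c, (1 : ℝ) := by
  rw [Finset.sum_const, nsmul_eq_mul, mul_one, ← SimpleGraph.card_neighborFinset_eq_degree]
  congr 2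
  ext c
  simp

theorem sum_edges (F : Sym2 V → ℝ) (a : V) :
    ∑ e : G.edgeSet, (if a ∈ (e : Sym2 V) then F e else 0) = S G F a := by
  unfold S
  rw [← Finset.sum_filter]
  symm
  refine Finset.sum_bij (fun c hc => (⟨s(a, c), by simpa using hc⟩ : G.edgeSet)) ?_ ?_ ?_ ?_
  · intro c hc
    simp
  · intro c hc c' hc' h
    have h1 : s(a, c) = s(a, c') := congrArg Subtype.val h
    exact Sym2.congr_right.1 h1
  · rintro ⟨e, he⟩ hb
    have hb2 : a ∈ e := by simpa using hb
    obtain ⟨c, rfl⟩ := Sym2.mem_iff_exists.1 hb2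
    exact ⟨c, by simpa using he, rfl⟩
  · intro c hc
    rfl

theorem sum_mem (f : V → ℝ) {a b : V} (h : a ≠ b) : ∑ x with x ∈ s(a, b), f x = f a + f b := by
  have : (univ.filter fun x => x ∈ s(a, b)) = {a, b} := by
    ext x
    simp
  rw [this, Finset.sum_pair h]

theorem ricci_mulVec (F : Sym2 V → ℝ) (e : G.edgeSet) :
    (ricci G *ᵥ fun e => F e) e =
      ∑ x with x ∈ (e : Sym2 V), (S G F x - 2 * F e) / (G.degree x : ℝ) := by
  have key : ∀ e' : G.edgeSet, ricci G e e' * F e' =
      ∑ x with x ∈ (e : Sym2 V), ((if x ∈ (e' : Sym2 V) then F e' else 0) -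
        if e = e' then 2 * F e' else 0) / (G.degree x : ℝ) := by
    intro e'
    unfold ricci
    by_cases h : e = e'
    · subst h
      rw [if_pos rfl, neg_mul, Finset.sum_mul, ← Finset.sum_neg_distrib]
      refine Finset.sum_congr rfl fun x hx => ?_
      rw [if_pos rfl, if_pos (Finset.mem_filter.1 hx).2]
      ring
    · rw [if_neg h, ← Finset.filter_filter, Finset.sum_mul, Finset.sum_filter]
      refine Finset.sum_congr rfl fun x _ => ?_
      rw [if_neg h]
      split_ifs
      · ring
      · ring
  rw [mulVec, dotProduct]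
  simp_rw [key]
  rw [Finset.sum_comm]
  refine Finset.sum_congr rfl fun x _ => ?_
  rw [← Finset.sum_div, Finset.sum_sub_distrib, sum_edges]
  simp

/-- the value at an edge -/
theorem ricci_edge (F : Sym2 V → ℝ) {a b : V} (h : G.Adj a b) :
    (ricci G *ᵥ fun e => F e) ⟨s(a, b), h⟩ =
      (S G F a - 2 * F s(a, b)) / (G.degree a : ℝ) + (S G F b - 2 * F s(a, b)) / (G.degree b : ℝ) := by
  rw [ricci_mulVec]
  exact sum_mem (fun x => (S G F x - 2 * F s(a, b)) / (G.degree x : ℝ)) h.ne

/-- neighbour sums after attaching a leaf -/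
theorem sum_attach_some (v a : V) (f : Option V → ℝ) :
    ∑ c with (attachLeaf G v).Adj (some a) c, f c =
      ∑ c with G.Adj a c, f (some c) + if a = v then f none else 0 := by
  rw [Finset.sum_filter, Fintype.sum_option, Finset.sum_filter, add_comm]
  rfl

theorem sum_attach_none (v : V) (f : Option V → ℝ) :
    ∑ c with (attachLeaf G v).Adj none c, f c = f (some v) := by
  rw [Finset.sum_filter, Fintype.sum_option]
  have h1 : ∀ c : V, (attachLeaf G v).Adj none (some c) ↔ c = v := fun c => Iff.rfl
  have h2 : ¬ (attachLeaf G v).Adj none none := fun h => h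
  simp [h1, h2]

end Pool.Agent.J4H66.TR
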