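import Pool.Agent.J4H66.TR.Ric

/-! The tree: a root with three children, all further inner vertices of degree 16, four levels. -/

open Matrix Finset

namespace Pool.Agent.J4H66.TR

/-- the parent of a vertex -/
def par (m : ℕ) : ℕ := (m + 11) / 15

abbrev N : ℕ := 10849

/-- the tree with vertex set `{0, ..., N - 1}` in which `m ≥ 1` is joined to `(m + 11) / 15`:
the root `0` has the children `1, 2, 3`, the vertex `m = 1, ..., 723` has the children
`15 m - 11, ..., 15 m + 3`, the others are leaves -/
def tree : SimpleGraph (Fin N) where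
  Adj x y := x ≠ y ∧ (par y = x ∨ par x = y)
  symm := ⟨fun _ _ h => ⟨h.1.symm, h.2.symm⟩⟩
  loopless := ⟨fun _ h => h.1 rfl⟩

theorem adj_iff (x y : Fin N) : tree.Adj x y ↔ x ≠ y ∧ (par y = x ∨ par x = y) := Iff.rfl

theorem reach (m : ℕ) : ∀ h : m < N, tree.Reachable ⟨m, h⟩ ⟨0, by norm_num⟩ := by
  induction m using Nat.strong_induction_on with
  | _ m ih =>
    intro h
    rcases Nat.eq_zero_or_pos m with h0 | h0
    · subst h0
      exact SimpleGraph.Reachable.refl _
    · have h1 : par m < m := by unfold par; omega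
      have h2 : tree.Adj ⟨m, h⟩ ⟨par m, h1.trans h⟩ := by
        rw [adj_iff]
        refine ⟨fun e => ?_, Or.inr rfl⟩
        have := congrArg Fin.val e
        simp only at this
        omega
      exact h2.reachable.trans (ih _ h1 _)

theorem conn : tree.Connected := by
  haveI : Nonempty (Fin N) := ⟨⟨0, by norm_num⟩⟩
  refine ⟨fun x y => ?_⟩
  exact (reach x.1 x.2).trans (reach y.1 y.2).symm

/-- edges and non-root vertices -/
theorem card_edges : Nat.card tree.edgeSet = N - 1 := by
  have h1 : Nat.card {m : Fin N // m.1 ≠ 0} = N - 1 := by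
    have h2 : Fintype.card {m : Fin N // m.1 = 0} = 1 := by
      rw [Fintype.card_eq_one_iff]
      refine ⟨⟨⟨0, by norm_num⟩, rfl⟩, ?_⟩
      rintro ⟨y, hy⟩
      exact Subtype.ext (Fin.ext hy)
    rw [Nat.card_eq_fintype_card, Fintype.card_subtype_compl, Fintype.card_fin, h2]
  rw [← h1]
  symm
  have hp : ∀ m : Fin N, m.1 ≠ 0 → par m < m.1 := by
    intro m hm
    unfold par
    omega
  refine Nat.card_congr (Equiv.ofBijective
    (fun m => (⟨s(m.1, ⟨par m.1, (hp m.1 m.2).trans m.1.2⟩), ?_⟩ : tree.edgeSet)) ⟨?_, ?_⟩)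
  · rw [SimpleGraph.mem_edgeSet, adj_iff]
    refine ⟨fun e => ?_, Or.inr rfl⟩
    have := congrArg Fin.val e
    have := hp m.1 m.2
    simp only at *
    omega
  · rintro ⟨m, hm⟩ ⟨m', hm'⟩ h
    have h1 := congrArg Subtype.val h
    simp only [Sym2.eq_iff, Fin.ext_iff] at h1
    have h2 := hp m hm
    have h3 := hp m' hm'
    refine Subtype.ext (Fin.ext ?_)
    simp only
    omega
  · rintro ⟨e, he⟩
    induction e using Sym2.ind with
    | _ x y =>
      rw [SimpleGraph.mem_edgeSet, adj_iff] at he
      obtain ⟨hne, h | h⟩ := he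
      · have hy : y.1 ≠ 0 := by
          intro h0
          apply hne
          apply Fin.ext
          rw [h0] at h ⊢
          rw [← h]
          unfold par
          norm_num
        refine ⟨⟨y, hy⟩, Subtype.ext ?_⟩
        exact Sym2.eq_iff.2 (Or.inr ⟨rfl, Fin.ext h⟩)
      · have hx : x.1 ≠ 0 := by
          intro h0
          apply hne
          apply Fin.ext
          rw [h0] at h ⊢
          rw [← h]
          unfold par
          norm_num
        refine ⟨⟨x, hx⟩, Subtype.ext ?_⟩
        exact Sym2.eq_iff.2 (Or.inl ⟨rfl, Fin.ext h⟩)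

theorem isTree : tree.IsTree := by
  rw [SimpleGraph.isTree_iff_connected_and_card]
  refine ⟨conn, ?_⟩
  rw [card_edges, Nat.card_eq_fintype_card, Fintype.card_fin]
  norm_num

/-- the number of the last vertex before the children, and of the last child -/
theorem nb_iff (m c : Fin N) : tree.Adj m c ↔ (m.1 ≠ 0 ∧ c.1 = par m) ∨ (c.1 ≠ 0 ∧ par c = m) := by
  rw [adj_iff]
  constructor
  · rintro ⟨hne, h | h⟩
    · right
      refine ⟨fun h0 => hne (Fin.ext ?_), h⟩
      rw [h0] at h ⊢
      rw [← h]
      rfl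
    · left
      refine ⟨fun h0 => hne (Fin.ext ?_), h.symm⟩
      rw [h0] at h ⊢
      rw [← h]
      rfl
  · rintro (⟨h0, h⟩ | ⟨h0, h⟩)
    · refine ⟨fun e => ?_, Or.inr h.symm⟩
      have h2 := congrArg Fin.val e
      unfold par at h
      omega
    · refine ⟨fun e => ?_, Or.inl h⟩
      have h2 := congrArg Fin.val e
      unfold par at h
      omega

open scoped Classical in
/-- neighbour sums in the tree -/
theorem sum_nb (m : Fin N) (φ : ℕ → ℝ) :
    ∑ c with tree.Adj m c, φ (max m.1 c.1) =
      (if m.1 = 0 then 0 else φ m.1) + ∑ c ∈ (Finset.Ico 1 N).filter (fun c => par c = m.1), φ c := by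
  have hp : ∀ m : Fin N, m.1 ≠ 0 → par m < m.1 := by
    intro m hm
    unfold par
    omega
  have h1 : (univ.filter fun c => tree.Adj m c) =
      (univ.filter fun c : Fin N => m.1 ≠ 0 ∧ c.1 = par m) ∪
      (univ.filter fun c : Fin N => c.1 ≠ 0 ∧ par c = m) := by
    ext c
    simp only [mem_filter, mem_univ, true_and, mem_union]
    exact nb_iff m c
  have hd : Disjoint (univ.filter fun c : Fin N => m.1 ≠ 0 ∧ c.1 = par m)
      (univ.filter fun c : Fin N => c.1 ≠ 0 ∧ par c = m) := by
    rw [Finset.disjoint_left]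
    intro c hc hc2
    simp only [mem_filter, mem_univ, true_and] at hc hc2
    have := hp m hc.1
    have := hp c hc2.1
    omega
  rw [h1, Finset.sum_union hd]
  refine congrArg₂ (· + ·) ?_ ?_
  · split_ifs with h0
    · rw [Finset.sum_eq_zero]
      intro c hc
      simp [h0] at hc
    · have h2 : (univ.filter fun c : Fin N => m.1 ≠ 0 ∧ c.1 = par m) =
          {⟨par m, (hp m h0).trans m.2⟩} := by
        ext c
        simp only [mem_filter, mem_univ, true_and, mem_singleton, Fin.ext_iff]
        exact ⟨fun h => h.2, fun h => ⟨h0, h⟩⟩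
      rw [h2, Finset.sum_singleton]
      simp only
      rw [max_eq_left (hp m h0).le]
  · refine Finset.sum_bij (fun c _ => c.1) ?_ ?_ ?_ ?_
    · intro c hc
      simp only [mem_filter, mem_univ, true_and] at hc
      simp only [mem_filter, mem_Ico]
      exact ⟨⟨Nat.one_le_iff_ne_zero.2 hc.1, c.2⟩, hc.2⟩
    · intro c _ c' _ h
      exact Fin.ext h
    · intro c hc
      simp only [mem_filter, mem_Ico] at hc
      refine ⟨⟨c, hc.1.2⟩, ?_, rfl⟩
      simp only [mem_filter, mem_univ, true_and]
      exact ⟨by omega, hc.2⟩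
    · intro c hc
      simp only [mem_filter, mem_univ, true_and] at hc
      have := hp c hc.1
      rw [max_eq_right (by omega)]

theorem ch_zero : (Finset.Ico 1 N).filter (fun c => par c = 0) = Finset.Icc 1 3 := by
  ext c
  simp only [mem_filter, mem_Ico, mem_Icc, par, N]
  omega

theorem ch_inner {m : ℕ} (h1 : 1 ≤ m) (h2 : m ≤ 723) :
    (Finset.Ico 1 N).filter (fun c => par c = m) = Finset.Icc (15 * m - 11) (15 * m + 3) := by
  ext c
  simp only [mem_filter, mem_Ico, mem_Icc, par, N]
  omega

theorem ch_leaf {m : ℕ} (h1 : 724 ≤ m) : (Finset.Ico 1 N).filter (fun c => par c = m) = ∅ := by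
  ext c
  simp only [mem_filter, mem_Ico, par, N, Finset.notMem_empty, iff_false]
  omega

theorem sum_const_on {s : Finset ℕ} {φ : ℕ → ℝ} {a : ℝ} {n : ℕ} (h : ∀ c ∈ s, φ c = a)
    (hn : s.card = n) : ∑ c ∈ s, φ c = n * a := by
  rw [Finset.sum_congr rfl h, Finset.sum_const, hn, nsmul_eq_mul]

end Pool.Agent.J4H66.TR
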