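import Pool.Agent.J4H66.TR.Tree

/-! The test functions. -/

open Matrix Finset

namespace Pool.Agent.J4H66.TR

/-- a function of the level -/
def lev (x0 x1 x2 x3 : ℝ) (m : ℕ) : ℝ :=
  if m ≤ 3 then x0 else if m ≤ 48 then x1 else if m ≤ 723 then x2 else x3

section
variable (x0 x1 x2 x3 : ℝ)

theorem lev0 {m : ℕ} (h : m ≤ 3) : lev x0 x1 x2 x3 m = x0 := by
  unfold lev; rw [if_pos h]

theorem lev1 {m : ℕ} (h : 4 ≤ m) (h2 : m ≤ 48) : lev x0 x1 x2 x3 m = x1 := by
  unfold lev; rw [if_neg (by omega), if_pos h2]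

theorem lev2 {m : ℕ} (h : 49 ≤ m) (h2 : m ≤ 723) : lev x0 x1 x2 x3 m = x2 := by
  unfold lev; rw [if_neg (by omega), if_neg (by omega), if_pos h2]

theorem lev3 {m : ℕ} (h : 724 ≤ m) : lev x0 x1 x2 x3 m = x3 := by
  unfold lev; rw [if_neg (by omega), if_neg (by omega), if_neg (by omega)]

open scoped Classical in
/-- neighbour sums of a function of the level -/
noncomputable def nbs (m : Fin N) : ℝ := ∑ c with tree.Adj m c, lev x0 x1 x2 x3 (max m.1 c.1)

theorem nbs0 {m : Fin N} (h : m.1 = 0) : nbs x0 x1 x2 x3 m = 3 * x0 := by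
  classical
  unfold nbs
  rw [sum_nb m (lev x0 x1 x2 x3), if_pos h, zero_add, h, ch_zero,
    sum_const_on (a := x0) (n := 3) (fun c hc => lev0 _ _ _ _ (Finset.mem_Icc.1 hc).2) (by simp)]
  norm_num

theorem nbs1 {m : Fin N} (h : 1 ≤ m.1) (h2 : m.1 ≤ 3) : nbs x0 x1 x2 x3 m = x0 + 15 * x1 := by
  classical
  unfold nbs
  rw [sum_nb m (lev x0 x1 x2 x3), if_neg (by omega), ch_inner h (by omega),
    sum_const_on (a := x1) (n := 15) (fun c hc => ?_) ?_, lev0 _ _ _ _ h2]
  · norm_num
  · rw [Nat.card_Icc]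
    omega
  · rw [Finset.mem_Icc] at hc
    exact lev1 _ _ _ _ (by omega) (by omega)

theorem nbs2 {m : Fin N} (h : 4 ≤ m.1) (h2 : m.1 ≤ 48) : nbs x0 x1 x2 x3 m = x1 + 15 * x2 := by
  classical
  unfold nbs
  rw [sum_nb m (lev x0 x1 x2 x3), if_neg (by omega), ch_inner (by omega) (by omega),
    sum_const_on (a := x2) (n := 15) (fun c hc => ?_) ?_, lev1 _ _ _ _ h h2]
  · norm_num
  · rw [Nat.card_Icc]
    omega
  · rw [Finset.mem_Icc] at hc
    exact lev2 _ _ _ _ (by omega) (by omega)

theorem nbs3 {m : Fin N} (h : 49 ≤ m.1) (h2 : m.1 ≤ 723) : nbs x0 x1 x2 x3 m = x2 + 15 * x3 := by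
  classical
  unfold nbs
  rw [sum_nb m (lev x0 x1 x2 x3), if_neg (by omega), ch_inner (by omega) (by omega),
    sum_const_on (a := x3) (n := 15) (fun c hc => ?_) ?_, lev2 _ _ _ _ h h2]
  · norm_num
  · rw [Nat.card_Icc]
    omega
  · rw [Finset.mem_Icc] at hc
    exact lev3 _ _ _ _ (by omega)

theorem nbs4 {m : Fin N} (h : 724 ≤ m.1) : nbs x0 x1 x2 x3 m = x3 := by
  classical
  unfold nbs
  rw [sum_nb m (lev x0 x1 x2 x3), if_neg (by omega), ch_leaf h, Finset.sum_empty, add_zero,
    lev3 _ _ _ _ h]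

end

theorem lev_one (m : ℕ) : lev 1 1 1 1 m = 1 := by
  unfold lev
  split_ifs <;> rfl

open scoped Classical in
theorem deg_eq (m : Fin N) : (tree.degree m : ℝ) = nbs 1 1 1 1 m := by
  rw [degree_eq]
  unfold nbs
  refine Finset.sum_congr rfl fun c _ => (lev_one _).symm

open scoped Classical in
theorem deg0 {m : Fin N} (h : m.1 = 0) : (tree.degree m : ℝ) = 3 := by
  rw [deg_eq, nbs0 _ _ _ _ h]; norm_num

open scoped Classical in
theorem deg1 {m : Fin N} (h : 1 ≤ m.1) (h2 : m.1 ≤ 723) : (tree.degree m : ℝ) = 16 := by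
  rw [deg_eq]
  rcases le_or_gt m.1 3 with h3 | h3
  · rw [nbs1 _ _ _ _ h h3]; norm_num
  · rcases le_or_gt m.1 48 with h4 | h4
    · rw [nbs2 _ _ _ _ (by omega) h4]; norm_num
    · rw [nbs3 _ _ _ _ (by omega) h2]; norm_num

open scoped Classical in
theorem deg4 {m : Fin N} (h : 724 ≤ m.1) : (tree.degree m : ℝ) = 1 := by
  rw [deg_eq, nbs4 _ _ _ _ h]

/-- the test function on the edges of the tree -/
def F (φ : ℕ → ℝ) : Sym2 (Fin N) → ℝ :=
  Sym2.lift ⟨fun a b => φ (max a.1 b.1), fun a b => congrArg φ (max_comm _ _)⟩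

theorem F_mk (φ : ℕ → ℝ) (a b : Fin N) : F φ s(a, b) = φ (max a.1 b.1) := rfl

/-- the test function on the edges of the tree with the additional leaf -/
def F' (φ : ℕ → ℝ) (y : ℝ) : Sym2 (Option (Fin N)) → ℝ :=
  Sym2.lift ⟨fun a b => match a, b with
    | some a, some b => φ (max a.1 b.1)
    | _, _ => y, fun a b => by
      cases a <;> cases b
      · rfl
      · rfl
      · rfl
      · exact congrArg φ (max_comm _ _)⟩

theorem F'_some (φ : ℕ → ℝ) (y : ℝ) (a b : Fin N) : F' φ y s(some a, some b) = φ (max a.1 b.1) := rfl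

theorem F'_none (φ : ℕ → ℝ) (y : ℝ) (a : Fin N) : F' φ y s(some a, none) = y := rfl

theorem F'_none' (φ : ℕ → ℝ) (y : ℝ) (a : Option (Fin N)) : F' φ y s(none, a) = y := by
  cases a <;> rfl

/-- a lower bound for all edges of the tree -/
theorem tree_edge {P : tree.edgeSet → Prop}
    (h : ∀ (a b : Fin N) (hab : tree.Adj a b), b.1 ≠ 0 → par b = a → P ⟨s(a, b), hab⟩)
    (e : tree.edgeSet) : P e := by
  obtain ⟨e, he⟩ := e
  induction e using Sym2.ind with
  | _ x y =>
    have he' : tree.Adj x y := he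
    rcases (nb_iff x y).1 he' with ⟨h0, h1⟩ | ⟨h0, h1⟩
    · have h2 := h y x he'.symm h0 h1.symm
      have h3 : (⟨s(y, x), he'.symm⟩ : tree.edgeSet) = ⟨s(x, y), he⟩ := Subtype.ext Sym2.eq_swap
      rw [← h3]
      exact h2
    · exact h x y he' h0 h1

theorem S_tree (x0 x1 x2 x3 : ℝ) (m : Fin N) :
    S tree (F (lev x0 x1 x2 x3)) m = nbs x0 x1 x2 x3 m := rfl

open scoped Classical in
theorem lower : ∀ e : tree.edgeSet, (10534399 / 10000000 : ℝ) * F (lev 20027 16719 4077 205) e ≤
    (ricci tree *ᵥ fun e => F (lev 20027 16719 4077 205) e) e := by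
  refine tree_edge fun a b hab hb hp => ?_
  rw [ricci_edge _ _ hab, S_tree, S_tree]
  simp only [F_mk]
  have hlt : a.1 < b.1 := by
    unfold par at hp
    omega
  rw [max_eq_right hlt.le]
  have hbN := b.2
  unfold par at hp
  unfold N at hbN
  rcases le_or_gt b.1 3 with h3 | h3
  · have ha : a.1 = 0 := by omega
    rw [lev0 _ _ _ _ h3, nbs0 _ _ _ _ ha, nbs1 _ _ _ _ (by omega) h3, deg0 ha,
      deg1 (by omega) (by omega)]
    norm_num
  · rcases le_or_gt b.1 48 with h4 | h4
    · rw [lev1 _ _ _ _ h3 h4, nbs1 _ _ _ _ (by omega) (by omega), nbs2 _ _ _ _ h3 h4,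
        deg1 (by omega) (by omega), deg1 (by omega) (by omega)]
      norm_num
    · rcases le_or_gt b.1 723 with h5 | h5
      · rw [lev2 _ _ _ _ h4 h5, nbs2 _ _ _ _ (by omega) (by omega), nbs3 _ _ _ _ h4 h5,
          deg1 (by omega) (by omega), deg1 (by omega) (by omega)]
        norm_num
      · rw [lev3 _ _ _ _ h5, nbs3 _ _ _ _ (by omega) (by omega), nbs4 _ _ _ _ h5,
          deg1 (by omega) (by omega), deg4 h5]
        norm_num

/-- the root -/
def r0 : Fin N := ⟨0, by norm_num⟩

theorem S_some (x0 x1 x2 x3 y : ℝ) (m : Fin N) :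
    S (attachLeaf tree r0) (F' (lev x0 x1 x2 x3) y) (some m) =
      nbs x0 x1 x2 x3 m + if m = r0 then y else 0 := by
  classical
  unfold S
  rw [sum_attach_some tree r0 m fun c => F' (lev x0 x1 x2 x3) y s(some m, c)]
  by_cases h : m = r0
  · rw [if_pos h, if_pos h]
    rfl
  · rw [if_neg h, if_neg h]
    rfl

theorem S_none (x0 x1 x2 x3 y : ℝ) : S (attachLeaf tree r0) (F' (lev x0 x1 x2 x3) y) none = y := by
  classical
  unfold S
  rw [sum_attach_none tree r0 fun c => F' (lev x0 x1 x2 x3) y s(none, c)]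
  exact F'_none' _ _ _

open scoped Classical in
theorem deg_some (m : Fin N) : ((attachLeaf tree r0).degree (some m) : ℝ) =
    tree.degree m + if m = r0 then 1 else 0 := by
  rw [degree_eq, degree_eq, sum_attach_some tree r0 m fun _ => 1]
  by_cases h : m = r0
  · rw [if_pos h, if_pos h]
  · rw [if_neg h, if_neg h]

open scoped Classical in
theorem deg_none : ((attachLeaf tree r0).degree none : ℝ) = 1 := by
  rw [degree_eq, sum_attach_none tree r0 fun _ => 1]

open scoped Classical in
theorem upper : ∀ e : (attachLeaf tree r0).edgeSet,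
    (ricci (attachLeaf tree r0) *ᵥ fun e => F' (lev 20027 16759 4089 206) 6521 e) e ≤
      (1053430 / 1000000 : ℝ) * F' (lev 20027 16759 4089 206) 6521 e := by
  rintro ⟨e, he⟩
  induction e using Sym2.ind with
  | _ x y =>
    -- the edges of the old tree, oriented
    have old : ∀ (a b : Fin N) (hab : (attachLeaf tree r0).Adj (some a) (some b)), b.1 ≠ 0 →
        par b = a → (ricci (attachLeaf tree r0) *ᵥ fun e => F' (lev 20027 16759 4089 206) 6521 e)
          ⟨s(some a, some b), hab⟩ ≤
        (1053430 / 1000000 : ℝ) * F' (lev 20027 16759 4089 206) 6521 s(some a, some b) := by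
      intro a b hab hb hp
      rw [ricci_edge _ _ hab, S_some, S_some, deg_some, deg_some]
      simp only [F'_some]
      have hlt : a.1 < b.1 := by
        unfold par at hp
        omega
      rw [max_eq_right hlt.le, if_neg (fun h : b = r0 => hb (by rw [h]; rfl)),
        if_neg (fun h : b = r0 => hb (by rw [h]; rfl))]
      have hbN := b.2
      unfold par at hp
      unfold N at hbN
      rcases le_or_gt b.1 3 with h3 | h3
      · have ha : a.1 = 0 := by omega
        have ha2 : a = r0 := Fin.ext ha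
        rw [lev0 _ _ _ _ h3, nbs0 _ _ _ _ ha, nbs1 _ _ _ _ (by omega) h3, deg0 ha,
          deg1 (by omega) (by omega), if_pos ha2, if_pos ha2]
        norm_num
      · have ha2 : a ≠ r0 := fun h => by
          have : a.1 = 0 := by rw [h]; rfl
          omega
        rw [if_neg ha2, if_neg ha2]
        rcases le_or_gt b.1 48 with h4 | h4
        · rw [lev1 _ _ _ _ h3 h4, nbs1 _ _ _ _ (by omega) (by omega), nbs2 _ _ _ _ h3 h4,
            deg1 (by omega) (by omega), deg1 (by omega) (by omega)]
          norm_num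
        · rcases le_or_gt b.1 723 with h5 | h5
          · rw [lev2 _ _ _ _ h4 h5, nbs2 _ _ _ _ (by omega) (by omega), nbs3 _ _ _ _ h4 h5,
              deg1 (by omega) (by omega), deg1 (by omega) (by omega)]
            norm_num
          · rw [lev3 _ _ _ _ h5, nbs3 _ _ _ _ (by omega) (by omega), nbs4 _ _ _ _ h5,
              deg1 (by omega) (by omega), deg4 h5]
            norm_num
    -- the new edge
    have new : ∀ (hab : (attachLeaf tree r0).Adj (some r0) none),
        (ricci (attachLeaf tree r0) *ᵥ fun e => F' (lev 20027 16759 4089 206) 6521 e)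
          ⟨s(some r0, none), hab⟩ ≤
        (1053430 / 1000000 : ℝ) * F' (lev 20027 16759 4089 206) 6521 s(some r0, none) := by
      intro hab
      rw [ricci_edge _ _ hab, S_some, S_none, deg_some, deg_none, F'_none, if_pos rfl, if_pos rfl,
        nbs0 _ _ _ _ rfl, deg0 rfl]
      norm_num
    have he' : (attachLeaf tree r0).Adj x y := he
    rcases x with _ | a <;> rcases y with _ | b
    · exact he'.elim
    · have hb : b = r0 := he'
      subst hb
      have h3 : (⟨s(none, some r0), he⟩ : (attachLeaf tree r0).edgeSet) =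
          ⟨s(some r0, none), he'.symm⟩ := Subtype.ext Sym2.eq_swap
      have h4 := new he'.symm
      rw [← h3] at h4
      have h5 : s(some r0, none) = s((none : Option (Fin N)), some r0) := Sym2.eq_swap
      rw [h5] at h4
      exact h4
    · have hb : a = r0 := he'
      subst hb
      exact new he'
    · rcases (nb_iff a b).1 he' with ⟨h0, h1⟩ | ⟨h0, h1⟩
      · have h4 := old b a he'.symm h0 h1.symm
        have h3 : (⟨s(some a, some b), he⟩ : (attachLeaf tree r0).edgeSet) =
            ⟨s(some b, some a), he'.symm⟩ := Subtype.ext Sym2.eq_swap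
        rw [← h3] at h4
        have h5 : s(some b, some a) = s(some a, some b) := Sym2.eq_swap
        rw [h5] at h4
        exact h4
      · exact old a b he' h0 h1

theorem lev_pos {x0 x1 x2 x3 : ℝ} (h0 : 0 < x0) (h1 : 0 < x1) (h2 : 0 < x2) (h3 : 0 < x3) (m : ℕ) :
    0 < lev x0 x1 x2 x3 m := by
  unfold lev
  split_ifs <;> assumption

open scoped Classical in
theorem main : lmax (ricci (attachLeaf tree r0)) < lmax (ricci tree) := by
  have h1 : lmax (ricci (attachLeaf tree r0)) ≤ 1053430 / 1000000 := by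
    refine lmax_le (ricci_nonneg _) (z := fun e => F' (lev 20027 16759 4089 206) 6521 e) ?_
      (by norm_num) upper
    rintro ⟨e, he⟩
    induction e using Sym2.ind with
    | _ x y =>
      rcases x with _ | a <;> rcases y with _ | b
      · show (0 : ℝ) < 6521
        norm_num
      · show (0 : ℝ) < 6521
        norm_num
      · show (0 : ℝ) < 6521
        norm_num
      · exact lev_pos (by norm_num) (by norm_num) (by norm_num) (by norm_num) _
  have hpos : ∀ e : tree.edgeSet, 0 < F (lev 20027 16719 4077 205) e := by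
    rintro ⟨e, he⟩
    induction e using Sym2.ind with
    | _ x y => exact lev_pos (by norm_num) (by norm_num) (by norm_num) (by norm_num) _
  have h2 : (10534399 / 10000000 : ℝ) ≤ lmax (ricci tree) := by
    refine le_lmax (ricci_nonneg _) (ricci_symm _)
      (x := fun e : tree.edgeSet => F (lev 20027 16719 4077 205) e) ?_ (fun e => (hpos e).le) lower
    intro h0
    have hab : tree.Adj ⟨0, by norm_num⟩ ⟨1, by norm_num⟩ := by
      rw [adj_iff]
      exact ⟨by simp, Or.inl rfl⟩
    have h3 := congrFun h0 ⟨s(_, _), hab⟩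
    exact (hpos ⟨s(_, _), hab⟩).ne' h3
  linarith

end Pool.Agent.J4H66.TR
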